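import Mathlib
import Pool.Agent.H41.OVO.Defs

/-!
# FACT 1: the hats of the points of an ovoid span `E`, and the formula of Plancherel

The form `bf` is bilinear, symmetric, nondegenerate; its values on pure tensors; the adjoint of `rho n A`
is `rho n (adj A)`. For `card F ^ 2 + 1` vectors `y i` with `om (y i) (y j) ≠ 0` for `i ≠ j` the Gram
matrix of the hats is `J + I`, the hats span `E`, and
`∑ i, bf φ (hat (y i)) * bf ψ (hat (y i)) = bf φ ψ`.
-/

set_option autoImplicit false

namespace Pool.OVE78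

open Finset Function Pool.OVE

section bf

variable {F : Type} [Field F] {h : ℕ} [NeZero h]

theorem bf_add_left (φ φ' ψ : E F h) : bf (φ + φ') ψ = bf φ ψ + bf φ' ψ := by
  simp only [bf, Pi.add_apply, add_mul, sum_add_distrib]

theorem bf_smul_left (a : F) (φ ψ : E F h) : bf (a • φ) ψ = a * bf φ ψ := by
  simp only [bf, Pi.smul_apply, smul_eq_mul, mul_sum, mul_assoc]

theorem bf_symm (φ ψ : E F h) : bf φ ψ = bf ψ φ := by
  unfold bf
  rw [← Equiv.sum_comp wbrE]
  refine sum_congr rfl fun w _ => ?_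
  rw [wbrE_apply, wbr_wbr, mul_comm]

theorem bf_add_right (φ ψ ψ' : E F h) : bf φ (ψ + ψ') = bf φ ψ + bf φ ψ' := by
  rw [bf_symm, bf_add_left, bf_symm ψ, bf_symm ψ']

theorem bf_smul_right (a : F) (φ ψ : E F h) : bf φ (a • ψ) = a * bf φ ψ := by
  rw [bf_symm, bf_smul_left, bf_symm]

/-- The form as a bilinear map. -/
def bfL : E F h →ₗ[F] E F h →ₗ[F] F :=
  LinearMap.mk₂ F bf bf_add_left bf_smul_left bf_add_right bf_smul_right

@[simp] theorem bfL_apply (φ ψ : E F h) : bfL φ ψ = bf φ ψ := rfl

theorem bf_zero_left (ψ : E F h) : bf 0 ψ = 0 := by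
  rw [← bfL_apply, map_zero, LinearMap.zero_apply]

theorem bf_zero_right (φ : E F h) : bf φ 0 = 0 := by
  rw [← bfL_apply, map_zero]

theorem bf_sum_left {ι : Type} (s : Finset ι) (f : ι → E F h) (ψ : E F h) :
    bf (∑ i ∈ s, f i) ψ = ∑ i ∈ s, bf (f i) ψ := by
  rw [← bfL_apply, map_sum, LinearMap.sum_apply]
  rfl

theorem bf_sum_right {ι : Type} (s : Finset ι) (φ : E F h) (f : ι → E F h) :
    bf φ (∑ i ∈ s, f i) = ∑ i ∈ s, bf φ (f i) := by
  rw [← bfL_apply, map_sum]
  rfl

theorem bf_single (φ : E F h) (w : W h) : bf φ (Pi.single w 1) = φ (wbr w) := by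
  classical
  unfold bf
  rw [Finset.sum_eq_single (wbr w)]
  · rw [wbr_wbr, Pi.single_eq_same, mul_one]
  · intro b _ hb
    rw [Pi.single_eq_of_ne, mul_zero]
    intro e
    exact hb (by rw [← e, wbr_wbr])
  · intro h
    exact absurd (mem_univ _) h

/-- The form is nondegenerate. -/
theorem bf_nondeg {φ : E F h} (hφ : ∀ ψ, bf φ ψ = 0) : φ = 0 := by
  classical
  funext w
  have h1 := hφ (Pi.single (wbr w) 1)
  rwa [bf_single, wbr_wbr] at h1

/-- The form on pure tensors. -/
theorem bf_pr (u v : ZMod h → Fin 4 → F) : bf (pr u) (pr v) = ∏ n, om (u n) (v n) := by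
  classical
  simp only [om_eq]
  rw [Finset.prod_univ_sum, Fintype.piFinset_univ]
  unfold bf pr
  refine sum_congr rfl fun w _ => ?_
  rw [← prod_mul_distrib]
  rfl

/-- The adjoint of a matrix at a digit. -/
theorem bf_rho (n : ZMod h) (A : Matrix (Fin 4) (Fin 4) F) (φ ψ : E F h) :
    bf (rho n A φ) ψ = bf φ (rho n (adj A) ψ) := by
  classical
  unfold bf
  simp only [rho_apply, sum_mul, mul_sum]
  rw [← Finset.sum_product', ← Finset.sum_product']
  refine Finset.sum_bij' (fun x _ => (update x.1 n x.2, br (x.1 n)))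
    (fun x _ => (update x.1 n (br x.2), x.1 n)) (fun _ _ => by simp) (fun _ _ => by simp)
    (fun x _ => ?_) (fun x _ => ?_) (fun x _ => ?_)
  · ext <;> simp
  · ext <;> simp
  · rw [wbr_update, update_idem, adj]
    simp only [br_br]
    have e1 : update (wbr x.1) n (br (x.1 n)) = wbr x.1 := by
      rw [← wbr_update, update_eq_self]
    have e2 : br ((update (wbr x.1) n (br x.2)) n) = x.2 := by rw [update_self, br_br]
    rw [e1, e2]
    ring

end bf

section gram

variable {F : Type} [Field F]

theorem om_symm (u v : Fin 4 → F) : om u v = om v u := by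
  unfold om
  ring

variable [CharP F 2]

theorem om_self (u : Fin 4 → F) : om u u = 0 := by
  have h2 : (2 : F) = 0 := CharTwo.two_eq_zero
  have e : om u u = 2 * (u 0 * u 3 + u 1 * u 2) := by
    unfold om
    ring
  rw [e, h2, zero_mul]

theorem om_pw {h : ℕ} (y y' : Fin 4 → F) (n : ZMod h) : om (pw y n) (pw y' n) = om y y' ^ 2 ^ n.val := by
  unfold om pw
  simp only [← mul_pow]
  rw [add_pow_char_pow, add_pow_char_pow, add_pow_char_pow]

variable {h : ℕ} [NeZero h]

theorem sum_pow_val : (∑ n : ZMod h, 2 ^ n.val) + 1 = 2 ^ h := by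
  have key : ∀ k : ℕ, (∑ i ∈ range k, 2 ^ i) + 1 = 2 ^ k := by
    intro k
    induction k with
    | zero => simp
    | succ k ih =>
      rw [sum_range_succ, pow_succ]
      omega
  cases h with
  | zero => exact absurd rfl (NeZero.ne 0)
  | succ k =>
    rw [← key (k + 1), ← Fin.sum_univ_eq_sum_range (fun i => 2 ^ i) (k + 1)]
    rfl

theorem bf_hat (y y' : Fin 4 → F) :
    bf (hat y : E F h) (hat y') = om y y' ^ (2 ^ h - 1) := by
  unfold hat
  rw [bf_pr]
  simp only [om_pw]
  rw [Finset.prod_pow_eq_pow_sum]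
  congr 1
  have := sum_pow_val (h := h)
  omega

variable [Fintype F] {ι : Type} [DecidableEq ι]

/-- The Gram matrix of the hats. -/
theorem bf_hat_hat (hq : Fintype.card F = 2 ^ h) {y : ι → Fin 4 → F}
    (hy : ∀ i j, i ≠ j → om (y i) (y j) ≠ 0) (i j : ι) :
    bf (hat (y i) : E F h) (hat (y j)) = if i = j then 0 else 1 := by
  rw [bf_hat]
  split_ifs with hij
  · subst hij
    rw [om_self, zero_pow]
    have h1 : 1 ≤ h := Nat.one_le_iff_ne_zero.2 (NeZero.ne h)
    have h2 : 2 ^ 1 ≤ 2 ^ h := Nat.pow_le_pow_right (by norm_num) h1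
    omega
  · rw [← hq]
    exact FiniteField.pow_card_sub_one_eq_one _ (hy i j hij)

variable [Fintype ι]

omit [DecidableEq ι] in
theorem cast_card (hι : Fintype.card ι = Fintype.card F ^ 2 + 1) (hq : Fintype.card F = 2 ^ h) :
    ((Fintype.card ι : ℕ) : F) = 1 := by
  have h1 : 1 ≤ h := Nat.one_le_iff_ne_zero.2 (NeZero.ne h)
  rw [hι, hq]
  push_cast
  rw [CharTwo.two_eq_zero, zero_pow (by omega), zero_pow (by norm_num), zero_add]

/-- **FACT 1, span.** -/
theorem hat_span (hq : Fintype.card F = 2 ^ h) (hι : Fintype.card ι = Fintype.card F ^ 2 + 1)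
    {y : ι → Fin 4 → F} (hy : ∀ i j, i ≠ j → om (y i) (y j) ≠ 0) :
    Submodule.span F (Set.range fun i => (hat (y i) : E F h)) = ⊤ := by
  classical
  let L : (ι → F) →ₗ[F] E F h := Fintype.linearCombination F fun i => (hat (y i) : E F h)
  have hL : ∀ x, L x = ∑ i, x i • (hat (y i) : E F h) := fun x => by
    rw [Fintype.linearCombination_apply]
  have hrange : LinearMap.range L = Submodule.span F (Set.range fun i => (hat (y i) : E F h)) :=
    Fintype.range_linearCombination F _
  rw [← hrange]
  have hker : LinearMap.ker L ≤ Submodule.span F {fun _ => (1 : F)} := by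
    intro x hx
    rw [LinearMap.mem_ker, hL] at hx
    have h1 : ∀ j, ∑ i, x i - x j = 0 := by
      intro j
      have h2 : bf (∑ i, x i • (hat (y i) : E F h)) (hat (y j)) = 0 := by
        rw [hx, bf_zero_left]
      rw [bf_sum_left] at h2
      simp only [bf_smul_left, bf_hat_hat hq hy] at h2
      have h3 : ∑ i, x i * (if i = j then 0 else 1) = ∑ i, x i - x j := by
        have h4 : ∀ i, x i * (if i = j then (0 : F) else 1) = x i - (if i = j then x i else 0) := by
          intro i
          split_ifs <;> ring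
        simp only [h4]
        rw [sum_sub_distrib, Finset.sum_ite_eq' univ j, if_pos (mem_univ _)]
      rw [← h3]
      exact h2
    rw [Submodule.mem_span_singleton]
    refine ⟨∑ i, x i, ?_⟩
    funext j
    rw [Pi.smul_apply, smul_eq_mul, mul_one]
    exact sub_eq_zero.1 (h1 j)
  have h5 := LinearMap.finrank_range_add_finrank_ker L
  have h6 : Module.finrank F (LinearMap.ker L) ≤ 1 := by
    refine (Submodule.finrank_mono hker).trans ?_
    have h8 := finrank_span_finset_le_card (R := F) ({fun _ => (1 : F)} : Finset (ι → F))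
    rwa [Finset.coe_singleton, Finset.card_singleton] at h8
  have h7 : Module.finrank F (E F h) = Fintype.card F ^ 2 := by
    rw [Module.finrank_fintype_fun_eq_card, Fintype.card_fun, Fintype.card_fin, ZMod.card, hq,
      show 4 = 2 ^ 2 by norm_num, ← pow_mul, ← pow_mul, mul_comm]
  rw [Module.finrank_fintype_fun_eq_card, hι] at h5
  apply Submodule.eq_top_of_finrank_eq
  refine le_antisymm (Submodule.finrank_le _) ?_
  rw [h7]
  omega

/-- **FACT 1, Plancherel.** -/
theorem plancherel (hq : Fintype.card F = 2 ^ h) (hι : Fintype.card ι = Fintype.card F ^ 2 + 1)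
    {y : ι → Fin 4 → F} (hy : ∀ i j, i ≠ j → om (y i) (y j) ≠ 0) (φ ψ : E F h) :
    ∑ i, bf φ (hat (y i)) * bf ψ (hat (y i)) = bf φ ψ := by
  classical
  have hspan := hat_span (h := h) hq hι hy
  have hcard := cast_card (h := h) hι hq
  -- on hats
  have h0 : ∀ j k, ∑ i, bf (hat (y j) : E F h) (hat (y i)) * bf (hat (y k) : E F h) (hat (y i)) =
      bf (hat (y j) : E F h) (hat (y k)) := by
    intro j k
    simp only [bf_hat_hat hq hy]
    have h1 : ∀ i, (if j = i then (0 : F) else 1) * (if k = i then 0 else 1) =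
        1 - (if j = i then 1 else 0) - (if k = i then 1 else 0) +
          (if j = i then (if k = i then 1 else 0) else 0) := by
      intro i
      split_ifs <;> ring
    simp only [h1]
    rw [sum_add_distrib, sum_sub_distrib, sum_sub_distrib, Finset.sum_ite_eq univ j,
      Finset.sum_ite_eq univ k, Finset.sum_ite_eq univ j, if_pos (mem_univ _),
      if_pos (mem_univ _), if_pos (mem_univ _), sum_const, card_univ, nsmul_eq_mul, mul_one, hcard]
    by_cases hjk : j = k
    · rw [if_pos hjk.symm, if_pos hjk]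
      ring
    · rw [if_neg (Ne.symm hjk), if_neg hjk]
      have h2 : (2 : F) = 0 := CharTwo.two_eq_zero
      linear_combination -h2
  -- extension by linearity
  let T : E F h →ₗ[F] E F h →ₗ[F] F :=
    ∑ i, (LinearMap.lsmul F F).compl₁₂ (bfL.flip (hat (y i))) (bfL.flip (hat (y i)))
  have hT : ∀ φ ψ : E F h, T φ ψ = ∑ i, bf φ (hat (y i)) * bf ψ (hat (y i)) := by
    intro φ ψ
    show (∑ i, (LinearMap.lsmul F F).compl₁₂ (bfL.flip (hat (y i))) (bfL.flip (hat (y i))) :
      E F h →ₗ[F] E F h →ₗ[F] F) φ ψ = _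
    rw [LinearMap.sum_apply, LinearMap.sum_apply]
    rfl
  have hTb : T = bfL := by
    apply LinearMap.ext_on_range (hv := hspan)
    intro j
    apply LinearMap.ext_on_range (hv := hspan)
    intro k
    rw [hT, bfL_apply]
    exact h0 j k
  rw [← hT, hTb, bfL_apply]

end gram

end Pool.OVE78
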